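import Pool.Agent.P.MP_56695d_gt.Main

set_option autoImplicit false

open Pool.Agent.Lib.PosetForcing Pool.Agent.P.MP_56695d_gt Cardinal

namespace Pool.Agent.Results.MP_56695d_gt.Consistent

theorem result : ∃ (M : Type 1) (mem : M → M → Prop), IsZFC mem ∧ ∃ w lt : M,
    IsOmega mem w ∧ IsDLO mem w lt ∧ ∃ X u : M,
      IsRealSet mem w lt X ∧ ¬ IsFin mem w X ∧ IsFreeUltra mem w u ∧
      (∀ Y Z, IsRealSet mem w lt Y → Scheepers mem w Y (OpenIn mem lt Y) → IsProd mem Z X Y →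
        Scheepers mem w Z (OpenIn2 mem lt Z)) ∧
      ∃ Y Z, IsRealSet mem w lt Y ∧ ¬ IsFin mem w Y ∧ UMenger mem w u Y (OpenIn mem lt Y) ∧
        IsProd mem Z X Y ∧ ¬ UMenger mem w u Z (OpenIn2 mem lt Z) := by
  obtain ⟨U, -⟩ := exists_gen (⊤ : Cond (Order.succ 𝔠).ord.ToType)
  obtain ⟨e, he⟩ := exists_emb
  refine ⟨Mod U, Mod.mem, isZFC U, omegaName.val U, ltN.val U, isOmega_omega U, isDLO U,
    (fam fun x => cutN (e x)).val U, WN.val U, isRealSet_fam e U,
    not_isFin (fun i => cutN (e fun _ => i)) (fun i j V h => ?_)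
      (fun i V => mem_fam (fun x => cutN (e x)) _ V) U, isFreeUltra U,
    scheepers_prod (fun γ => Order.lt_succ_iff.1 (mk_Iio_toType_ord_lt γ)) (by simp) e U,
    (fam fun n : ℕ => cutN n).val U, (ZN e).val U, isRealSet_fam _ U,
    not_isFin (fun i => cutN i) (fun i j V h => Nat.cast_injective (cutN_inj h))
      (fun i V => mem_fam (fun n : ℕ => cutN n) i V) U, uMenger_fam _ (fun V =>
      OpenIn Mod.mem (ltN.val V) ((fam fun n : ℕ => cutN n).val V)) U,
    isProd_fam (fun x => cutN (e x)) (fun n : ℕ => cutN n) U,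
    not_uMenger he U⟩
  obtain ⟨a, b, h1, h2, h3⟩ := he (fun _ => j) 0
  exact h3 _ (cutN_inj h ▸ h1) (cutN_inj h ▸ h2)

end Pool.Agent.Results.MP_56695d_gt.Consistent
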